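import Pool.Agent.helper48.EXI.Spec2

/-!
# Block EXI of project NPT (MP_8f32d0_ag), row WRO (helper30)
-/

set_option autoImplicit false

namespace EXI

open scoped Classical
open AN
open Pool.Agent.helper53.AU

noncomputable section

/-- the leading term of a linear combination -/
lemma WRO_max (k : Type) [Field k] (T : Finset ℕ) (w : ℕ → LS k)
    (hw : ∀ r ∈ T, w r ∈ GE k (-(r : ℤ)) ∧ cf (w r) (-(r : ℤ)) ≠ 0) (c : ℕ → k)
    (hc : ∃ r ∈ T, c r ≠ 0) : ∃ r0 ∈ T, c r0 ≠ 0 ∧ (∀ r ∈ T, r0 < r → c r = 0) ∧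
      (∑ r ∈ T, c r • w r) ∈ GE k (-(r0 : ℤ)) ∧ cf (∑ r ∈ T, c r • w r) (-(r0 : ℤ)) ≠ 0 := by
  have hne : (T.filter fun r => c r ≠ 0).Nonempty := by
    obtain ⟨r, hr, hr'⟩ := hc
    exact ⟨r, Finset.mem_filter.2 ⟨hr, hr'⟩⟩
  set r0 := (T.filter fun r => c r ≠ 0).max' hne with hr0
  have hmem := Finset.mem_filter.1 ((T.filter fun r => c r ≠ 0).max'_mem hne)
  have hgt : ∀ r ∈ T, r0 < r → c r = 0 := by
    intro r hr hlt
    by_contra hne'
    have h := (T.filter fun r => c r ≠ 0).le_max' r (Finset.mem_filter.2 ⟨hr, hne'⟩)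
    omega
  refine ⟨r0, hmem.1, hmem.2, hgt, ?_, ?_⟩
  · refine Submodule.sum_mem _ fun r hr => ?_
    by_cases h : r0 < r
    · rw [hgt r hr h, zero_smul]
      exact Submodule.zero_mem _
    · refine Submodule.smul_mem _ _ ?_
      rw [mem_GE]
      intro n hn
      refine (mem_GE.1 (hw r hr).1) n ?_
      have : (r : ℤ) ≤ r0 := by exact_mod_cast not_lt.1 h
      omega
  · rw [cf_sum, Finset.sum_eq_single r0]
    · rw [cf_smul]
      exact mul_ne_zero hmem.2 (hw r0 hmem.1).2
    · intro r hr hne'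
      rw [cf_smul]
      rcases lt_or_gt_of_ne hne' with h | h
      · have h1 : cf (w r) (-(r0 : ℤ)) = 0 := by
          refine (mem_GE.1 (hw r hr).1) _ ?_
          have : (r : ℤ) < r0 := by exact_mod_cast h
          omega
        rw [h1, mul_zero]
      · rw [hgt r hr h, zero_mul]
    · intro h
      exact absurd hmem.1 h

theorem WRO : WRO_stmt := by
  intro k _ S w hw V hV
  have hrep : ∀ v ∈ V, ∃ (T : Finset ℕ) (c : ℕ → k), (∀ r ∈ T, r ∈ S) ∧ v = ∑ r ∈ T, c r • w r := by
    intro v hv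
    rw [hV, Finsupp.mem_span_image_iff_linearCombination] at hv
    obtain ⟨l, hl, rfl⟩ := hv
    exact ⟨l.support, l, fun r hr => hl hr, rfl⟩
  have hlead : ∀ v ∈ V, v ≠ 0 → ∃ (T : Finset ℕ) (c : ℕ → k) (r0 : ℕ), (∀ r ∈ T, r ∈ S) ∧
      v = ∑ r ∈ T, c r • w r ∧ r0 ∈ S ∧ (∀ r ∈ T, r0 < r → c r = 0) ∧ v ∈ GE k (-(r0 : ℤ)) ∧
      cf v (-(r0 : ℤ)) ≠ 0 := by
    intro v hv hv0
    obtain ⟨T, c, hT, rfl⟩ := hrep v hv
    have hc : ∃ r ∈ T, c r ≠ 0 := by
      by_contra hcon
      push Not at hcon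
      apply hv0
      exact Finset.sum_eq_zero fun r hr => by rw [hcon r hr, zero_smul]
    obtain ⟨r0, h1, h2, h3, h4, h5⟩ := WRO_max k T w (fun r hr => hw r (hT r hr)) c hc
    exact ⟨T, c, r0, hT, rfl, hT r0 h1, h3, h4, h5⟩
  refine ⟨?_, ?_, ?_⟩
  · rw [eq_bot_iff]
    intro v hv
    rw [Submodule.mem_bot]
    by_contra hv0
    obtain ⟨T, c, r0, -, -, -, -, -, h5⟩ := hlead v hv.1 hv0
    apply h5
    refine (mem_GE.1 hv.2) _ ?_
    omega
  · intro v hv hv0
    obtain ⟨T, c, r0, -, -, h2, -, h4, h5⟩ := hlead v hv hv0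
    exact ⟨r0, h2, h4, h5⟩
  · intro m
    set T0 : Finset ℕ := (Finset.range (m + 1)).filter (fun r => r ∈ S) with hT0
    have hT0m : ∀ r, r ∈ T0 ↔ r ≤ m ∧ r ∈ S := by
      intro r
      rw [hT0, Finset.mem_filter, Finset.mem_range, Nat.lt_succ_iff]
    have hli : LinearIndependent k (fun i : T0 => w i) := by
      rw [Fintype.linearIndependent_iff]
      intro g hg
      by_contra hcon
      push Not at hcon
      obtain ⟨i, hi⟩ := hcon
      set c : ℕ → k := fun r => if h : r ∈ T0 then g ⟨r, h⟩ else 0 with hc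
      have hci : ∀ i : T0, c i = g i := by
        intro i
        rw [hc]
        show (if h : (i : ℕ) ∈ T0 then g ⟨i, h⟩ else 0) = g i
        rw [dif_pos i.2]
      have hsum : ∑ r ∈ T0, c r • w r = 0 := by
        rw [← Finset.sum_coe_sort T0 (fun r => c r • w r), ← hg]
        refine Finset.sum_congr rfl fun i _ => ?_
        rw [hci]
      obtain ⟨r0, h1, h2, h3, h4, h5⟩ := WRO_max k T0 w (fun r hr => hw r ((hT0m r).1 hr).2) c
        ⟨i, i.2, by rw [hci]; exact hi⟩
      rw [hsum] at h5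
      exact h5 (cf_zero _)
    have heq : (V ⊓ GE k (-(m : ℤ)) : Submodule k (LS k)) =
        Submodule.span k (Set.range fun i : T0 => w i) := by
      refine le_antisymm ?_ ?_
      · intro v hv
        by_cases hv0 : v = 0
        · rw [hv0]
          exact Submodule.zero_mem _
        obtain ⟨T, c, r0, hT, hvT, -, h3, -, h5⟩ := hlead v hv.1 hv0
        have hr0 : r0 ≤ m := by
          by_contra hlt
          apply h5
          refine (mem_GE.1 hv.2) _ ?_
          have : (m : ℤ) < r0 := by exact_mod_cast not_le.1 hlt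
          omega
        rw [hvT]
        refine Submodule.sum_mem _ fun r hr => ?_
        by_cases h : r0 < r
        · rw [h3 r hr h, zero_smul]
          exact Submodule.zero_mem _
        · refine Submodule.smul_mem _ _ (Submodule.subset_span ⟨⟨r, (hT0m r).2 ⟨?_, hT r hr⟩⟩, rfl⟩)
          omega
      · rw [Submodule.span_le]
        rintro _ ⟨i, rfl⟩
        have hi := (hT0m i).1 i.2
        refine ⟨?_, ?_⟩
        · show w i ∈ V
          rw [hV]
          exact Submodule.subset_span ⟨i, hi.2, rfl⟩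
        · show w i ∈ GE k (-(m : ℤ))
          rw [mem_GE]
          intro n hn
          refine (mem_GE.1 (hw i hi.2).1) n ?_
          have : ((i : ℕ) : ℤ) ≤ m := by exact_mod_cast hi.1
          omega
    rw [heq, finrank_span_eq_card hli, Fintype.card_coe]

end

end EXI
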